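import Pool.Agent.H60.GU.Main

/-!
Near graph universal cycles for unlabelled graphs: for all large `n` a cyclically ordered graph on
at most `(1 + 2^(-n/10)) g(n)` vertices realises every isomorphism class of `n`-vertex graphs as
an `n`-window, and all but a fraction `2^(-n/10)` of the classes exactly once.
-/

namespace Pool.Agent.Results.MP_4cbe31_co.NearCycle

open Pool.Agent.H60.GU

/-- **Main result.** -/
theorem result : ∃ n₀ : ℕ, ∀ n : ℕ, n₀ ≤ n → ∃ N : ℕ, n ≤ N ∧
    (N : ℝ) ≤ (1 + (2 : ℝ) ^ (-((n : ℝ) / 10))) * numCls n ∧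
    ∃ G : SimpleGraph (ZMod N),
      (∀ H : SimpleGraph (Fin n), ∃ i : ZMod N, Nonempty (window G n i ≃g H)) ∧
      (1 - (2 : ℝ) ^ (-((n : ℝ) / 10))) * numCls n ≤
        (Nat.card {c : Cls n // ∃! i : ZMod N, cls (window G n i) = c} : ℝ) :=
  main

end Pool.Agent.Results.MP_4cbe31_co.NearCycle
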